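import Pool.Agent.Helper11.KS.Sheet
open MeasureTheory Metric Set Filter Topology Real
open scoped ENNReal NNReal

/-! # Row UR of the sheet `KS` -/

namespace Helper97
namespace KS
open H11ST H11ST.KS

/-- the computation: `n = ‖v‖`, `x` the coordinate of `v` along the arm, `R` the rest -/
theorem ur_real {t n x R q c : ℝ} (ht : 0 < t) (ht3 : t ≤ 3 / 10) (hn : (2 - t) / 3 ≤ n)
    (hn1 : n ≤ 1) (hR : 0 ≤ R) (hR1 : n ^ 2 + 2 * R * x + R ^ 2 = 1) (hc : 0 < c)
    (hx : x = q + c) (hq : -t < q) (hnx : n ^ 2 - x ^ 2 ≤ t ^ 2) : 91 / 100 * R ≤ 1 - n := by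
  have hn0 : 17 / 30 ≤ n := by linarith
  have hx0 : -t < x := by linarith
  have ht2 : t ^ 2 ≤ 9 / 100 := by nlinarith
  have hx2 : n ^ 2 - 9 / 100 ≤ x ^ 2 := by linarith
  have hxp : 0 < x := by
    by_contra h
    have h1 : -x < 3 / 10 := by linarith
    have h2 : x ^ 2 < 9 / 100 := by nlinarith
    nlinarith
  have hxl : 91 / 100 * n - 439 / 10000 ≤ x := by
    by_contra h
    have h1 : x < 91 / 100 * n - 439 / 10000 := lt_of_not_ge h
    have h2 : x ^ 2 < (91 / 100 * n - 439 / 10000) ^ 2 := by nlinarith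
    nlinarith
  have hX2 : 91 / 100 ≤ (x + R) ^ 2 := by nlinarith
  have hX : 9539 / 10000 ≤ x + R := by
    by_contra h
    have h1 : x + R < 9539 / 10000 := lt_of_not_ge h
    nlinarith
  have hs : 91 / 100 * (1 + n) ≤ (x + R) + x := by linarith
  have h3 : R * ((x + R) + x) = (1 - n) * (1 + n) := by nlinarith
  have h4 : 91 / 100 * (1 + n) * R ≤ (1 - n) * (1 + n) := by
    rw [← h3]
    nlinarith [mul_le_mul_of_nonneg_left hs hR]
  have h5 : (91 / 100 * R) * (1 + n) ≤ (1 - n) * (1 + n) := by linarith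
  exact le_of_mul_le_mul_right h5 (by linarith)

theorem ks_UR : KS_UR := by
  intro t φ s a v c rr ht ht3 G i
  have he : ‖ev (φ + dl4 i)‖ = 1 := norm_ev _
  have hv := G.vd i
  have hs := G.sn (ft4 i)
  have hw := G.rv i
  have e1 : ‖v i‖ ^ 2 + 2 * rr i * inner ℝ (v i) (ev (φ + dl4 i)) + rr i ^ 2 = 1 := by
    have := norm_add_sq_real (v i) (rr i • ev (φ + dl4 i))
    rw [hw, inner_smul_right, norm_smul, he, Real.norm_eq_abs, mul_one, sq_abs] at this
    linarith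
  have e2 : inner ℝ (v i) (ev (φ + dl4 i)) = inner ℝ (s (ft4 i)) (ev (φ + dl4 i)) + c i := by
    rw [hv, inner_add_left, inner_smul_left, real_inner_self_eq_norm_sq, he]
    simp
  have e3 : ‖v i‖ ^ 2 = ‖s (ft4 i)‖ ^ 2 + 2 * c i * inner ℝ (s (ft4 i)) (ev (φ + dl4 i)) +
      c i ^ 2 := by
    have := norm_add_sq_real (s (ft4 i)) (c i • ev (φ + dl4 i))
    rw [← hv, inner_smul_right, norm_smul, he, Real.norm_eq_abs, mul_one, sq_abs] at this
    linarith
  have hcs : |inner ℝ (s (ft4 i)) (ev (φ + dl4 i))| ≤ ‖s (ft4 i)‖ := by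
    have := abs_real_inner_le_norm (s (ft4 i)) (ev (φ + dl4 i))
    rwa [he, mul_one] at this
  have hq : -t < inner ℝ (s (ft4 i)) (ev (φ + dl4 i)) := by
    have := (abs_le.1 hcs).1
    linarith
  refine ur_real (q := inner ℝ (s (ft4 i)) (ev (φ + dl4 i))) (c := c i) ht ht3 (G.vlow i)
    (G.vup i) (G.r0 i) e1 (G.cpos i) e2 hq ?_
  rw [e2, e3]
  have h1 : ‖s (ft4 i)‖ ^ 2 ≤ t ^ 2 := by
    have := norm_nonneg (s (ft4 i))
    nlinarith
  nlinarith [sq_nonneg (inner ℝ (s (ft4 i)) (ev (φ + dl4 i)) : ℝ)]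

end KS
end Helper97
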